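import Pool.Agent.helper62.VQ.SpecE
import Pool.Agent.helper62.QU.All
import Pool.Agent.helper62.RS.SpecG
import Pool.Agent.helper62.RS.GLC
import Pool.Agent.helper92.RS.GMG
import Pool.Agent.helper83.RS.GLI

/-!
# MP_07c750, project VQ, block 5, row VNE: the mean ergodic theorem for the flow on the quotient
-/

set_option autoImplicit false

open scoped MatrixGroups ContDiff Topology UpperHalfPlane
open UpperHalfPlane MeasureTheory Filter Set

namespace Pool.Agent.VQE

open Pool.Agent.RS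

noncomputable section

theorem VNE_proof (hVNA : VNA_stmt) (hRDM : RDM_stmt) : VNE_stmt := by
  intro Γ F p q f h L hΓ hF hf ht
  have hGLC : GLC_stmt := GLC
  have hGMG : GMG_stmt := GMG hGLC
  have hGLI : GLI_stmt := GLI hGLC hGMG
  have i2 := hGLC.2.1
  obtain ⟨hcnt, -, -, hvt, -, -⟩ := QU.A_DOB Γ F hΓ hF
  obtain ⟨hdm, hdv⟩ := hGMG.1 F hF.meas
  have hfin : IsFiniteMeasure (mG.restrict (dG F)) :=
    ⟨by rw [Measure.restrict_apply_univ, hdv]; exact hvt⟩
  obtain ⟨r1, r2, r3, r4, r5, r6⟩ := hRDM Γ F hΓ hF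
  have hc1 : ∀ t, Continuous (f t) := fun t => hf.cont.comp (continuous_const.prodMk continuous_id)
  have hc2 : ∀ g, Continuous fun t => h (f t g) := fun g =>
    ht.cont.comp (hf.cont.comp (continuous_id.prodMk continuous_const))
  have hii : ∀ g a b, IntervalIntegrable (fun t => h (f t g)) volume a b := fun g a b =>
    (hc2 g).intervalIntegrable a b
  have hinv : ∀ (γ : Γ) (t : ℝ) (g : SL(2, ℝ)), h (f t ((γ : SL(2, ℝ)) * g)) = h (f t g) := by
    intro γ t g
    rw [hf.inv, ht.inv]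
  set μ : Measure SL(2, ℝ) := mG.restrict (dG F) with hμ
  set T : SL(2, ℝ) → SL(2, ℝ) := fun g => red Γ F (f 1 g) with hT
  set S : SL(2, ℝ) → SL(2, ℝ) := fun g => red Γ F (f (-1) g) with hS
  have hfg1 : ∀ g, f (-1) (f 1 g) = g := fun g => by
    rw [← hf.add, neg_add_cancel, hf.zero]
  have hfg2 : ∀ g, f 1 (f (-1) g) = g := fun g => by
    rw [← hf.add, add_neg_cancel, hf.zero]
  have hTm : MeasurePreserving T μ μ := r6 (f 1) (f (-1)) (hc1 1).measurable (hc1 (-1)).measurable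
    hfg1 hfg2 (fun γ g => hf.inv γ 1 g) (hf.mp 1)
  have hSm : MeasurePreserving S μ μ := r6 (f (-1)) (f 1) (hc1 (-1)).measurable (hc1 1).measurable
    hfg2 hfg1 (fun γ g => hf.inv γ (-1) g) (hf.mp (-1))
  have hST : ∀ᵐ w ∂μ, S (T w) = w := by
    rw [hμ, ae_restrict_iff' hdm]
    refine Eventually.of_forall fun w hw => ?_
    obtain ⟨γ, hγ⟩ := r4 (f 1 w)
    show red Γ F (f (-1) (red Γ F (f 1 w))) = w
    rw [hγ, hf.inv, r2, hfg1, r3 w hw]
  have hTS : ∀ᵐ w ∂μ, T (S w) = w := by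
    rw [hμ, ae_restrict_iff' hdm]
    refine Eventually.of_forall fun w hw => ?_
    obtain ⟨γ, hγ⟩ := r4 (f (-1) w)
    show red Γ F (f 1 (red Γ F (f (-1) w))) = w
    rw [hγ, hf.inv, r2, hfg2, r3 w hw]
  set H : SL(2, ℝ) → ℝ := fun g => ∫ s in (0 : ℝ)..1, h (f s g) with hH
  have hHc : Continuous H := by
    have h2 : Continuous (Function.uncurry fun (g : SL(2, ℝ)) (s : ℝ) => h (f s g)) :=
      ht.cont.comp (hf.cont.comp (continuous_snd.prodMk continuous_fst))
    exact intervalIntegral.continuous_parametric_intervalIntegral_of_continuous' h2 0 1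
  have hb1 : ∀ (g : SL(2, ℝ)) (a : ℝ), |∫ s in a..(a + 1), h (f s g)| ≤ 1 := by
    intro g a
    have h1 : ‖∫ s in a..(a + 1), h (f s g)‖ ≤ 1 * |a + 1 - a| :=
      intervalIntegral.norm_integral_le_of_norm_le_const fun s _ => ht.bd _
    rwa [add_sub_cancel_left, abs_one, mul_one] at h1
  have hHb : ∀ g, |H g| ≤ 1 := fun g => by
    have h1 := hb1 g 0
    rwa [zero_add] at h1
  have hHi : ∀ (γ : Γ) g, H ((γ : SL(2, ℝ)) * g) = H g := by
    intro γ g
    simp only [hH, hinv]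
  have itT : ∀ (j : ℕ) g, ∃ γ : Γ, T^[j] g = (γ : SL(2, ℝ)) * f j g := by
    intro j g
    induction j with
    | zero =>
      refine ⟨1, ?_⟩
      rw [Function.iterate_zero, id_eq, Nat.cast_zero, hf.zero, OneMemClass.coe_one, one_mul]
    | succ j ih =>
      obtain ⟨γ, hγ⟩ := ih
      obtain ⟨γ', hγ'⟩ := r4 (f 1 (f j g))
      refine ⟨γ', ?_⟩
      rw [Function.iterate_succ_apply', hγ]
      show red Γ F (f 1 ((γ : SL(2, ℝ)) * f j g)) = _
      rw [hf.inv, r2, hγ', ← hf.add, Nat.cast_succ, add_comm]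
  have itS : ∀ (j : ℕ) g, ∃ γ : Γ, S^[j] g = (γ : SL(2, ℝ)) * f (-(j : ℝ)) g := by
    intro j g
    induction j with
    | zero =>
      refine ⟨1, ?_⟩
      rw [Function.iterate_zero, id_eq, Nat.cast_zero, neg_zero, hf.zero, OneMemClass.coe_one,
        one_mul]
    | succ j ih =>
      obtain ⟨γ, hγ⟩ := ih
      obtain ⟨γ', hγ'⟩ := r4 (f (-1) (f (-(j : ℝ)) g))
      refine ⟨γ', ?_⟩
      rw [Function.iterate_succ_apply', hγ]
      show red Γ F (f (-1) ((γ : SL(2, ℝ)) * f (-(j : ℝ)) g)) = _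
      rw [hf.inv, r2, hγ', ← hf.add, Nat.cast_succ, neg_add, add_comm]
  have hshift : ∀ (a : ℝ) (g : SL(2, ℝ)), H (f a g) = ∫ s in a..(a + 1), h (f s g) := by
    intro a g
    have e : ∀ s, f s (f a g) = f (s + a) g := fun s => (hf.add s a g).symm
    simp only [hH, e]
    rw [intervalIntegral.integral_comp_add_right (fun x => h (f x g)) a, zero_add, add_comm 1 a]
  have sumT : ∀ (n : ℕ) g, ∑ j ∈ Finset.range n, H (T^[j] g) = ∫ s in (0 : ℝ)..n, h (f s g) := by
    intro n g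
    induction n with
    | zero => simp
    | succ n ih =>
      obtain ⟨γ, hγ⟩ := itT n g
      rw [Finset.sum_range_succ, ih, hγ, hHi, hshift, Nat.cast_succ,
        intervalIntegral.integral_add_adjacent_intervals (hii g _ _) (hii g _ _)]
  have sumS : ∀ (n : ℕ) g, ∑ j ∈ Finset.range n, H (S^[j] g) =
      ∫ s in (1 - (n : ℝ))..1, h (f s g) := by
    intro n g
    induction n with
    | zero => simp
    | succ n ih =>
      obtain ⟨γ, hγ⟩ := itS n g
      have e1 : -(n : ℝ) + 1 = 1 - n := by ring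
      have e2 : 1 - ((n + 1 : ℕ) : ℝ) = -(n : ℝ) := by push_cast; ring
      rw [Finset.sum_range_succ, ih, hγ, hHi, hshift, e1, e2, add_comm,
        intervalIntegral.integral_add_adjacent_intervals (hii g _ _) (hii g _ _)]
  have avT : ∀ (n : ℕ) g, avf f h n g = (n : ℝ)⁻¹ * ∑ j ∈ Finset.range n, H (T^[j] g) := by
    intro n g
    rw [sumT]
    rfl
  have avS : ∀ (n : ℕ) g, |(n : ℝ)⁻¹ * ∑ j ∈ Finset.range n, H (S^[j] g) -
      avf (fun t => f (-t)) h n g| ≤ 2 * (n : ℝ)⁻¹ := by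
    intro n g
    have e0 : avf (fun t => f (-t)) h n g = (n : ℝ)⁻¹ * ∫ s in (-(n : ℝ))..0, h (f s g) := by
      show (n : ℝ)⁻¹ * ∫ t in (0 : ℝ)..n, h (f (-t) g) = _
      rw [intervalIntegral.integral_comp_neg (fun x => h (f x g)), neg_zero]
    have e1 : (∫ s in (1 - (n : ℝ))..1, h (f s g)) - ∫ s in (-(n : ℝ))..0, h (f s g) =
        (∫ s in (0 : ℝ)..(0 + 1), h (f s g)) - ∫ s in (-(n : ℝ))..(-(n : ℝ) + 1), h (f s g) := by
      have a1 := intervalIntegral.integral_add_adjacent_intervals (hii g (1 - (n : ℝ)) 0) (hii g 0 1)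
      have a2 := intervalIntegral.integral_add_adjacent_intervals (hii g (-(n : ℝ)) (1 - (n : ℝ)))
        (hii g (1 - (n : ℝ)) 0)
      have a3 : -(n : ℝ) + 1 = 1 - n := by ring
      rw [a3, zero_add, ← a1, ← a2]
      ring
    rw [e0, sumS, ← mul_sub, e1, abs_mul, abs_of_nonneg (inv_nonneg.2 (Nat.cast_nonneg n)), mul_comm]
    refine mul_le_mul_of_nonneg_right ?_ (inv_nonneg.2 (Nat.cast_nonneg n))
    refine (abs_sub _ _).trans ?_
    have b1 := hb1 g 0
    have b2 := hb1 g (-(n : ℝ))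
    linarith
  obtain ⟨u₀, ns, hu₀, hns, c1, c2, c3⟩ := hVNA SL(2, ℝ) μ T S H hTm hSm hST hTS hHc.measurable hHb
  have hnst : Tendsto ns atTop atTop := hns.tendsto_atTop
  have h2n : Tendsto (fun k => 2 * ((ns k : ℕ) : ℝ)⁻¹) atTop (𝓝 0) := by
    have h1 := ((tendsto_inv_atTop_nhds_zero_nat (𝕜 := ℝ)).comp hnst).const_mul 2
    rw [mul_zero] at h1
    exact h1
  have avi : ∀ (φ : ℝ → ℝ) (T : ℝ) (γ : Γ) (g : SL(2, ℝ)), avf (fun t => f (φ t)) h T ((γ : SL(2, ℝ)) * g) =
      avf (fun t => f (φ t)) h T g := by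
    intro φ T γ g
    unfold avf
    simp only [hinv]
  refine ⟨fun g => u₀ (red Γ F g), ns, hu₀.comp r5, hns, ?_, ?_⟩
  · -- almost everywhere
    set P : SL(2, ℝ) → Prop := fun g =>
      Tendsto (fun k => avf f h (ns k) g) atTop (𝓝 (u₀ (red Γ F g))) ∧
      Tendsto (fun k => avf (fun t => f (-t)) h (ns k) g) atTop (𝓝 (u₀ (red Γ F g))) with hP
    have hPi : ∀ (γ : Γ) g, P ((γ : SL(2, ℝ)) * g) ↔ P g := by
      intro γ g
      simp only [hP, r2]
      have e1 : ∀ k, avf f h (ns k) ((γ : SL(2, ℝ)) * g) = avf f h (ns k) g := fun k =>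
        avi (fun t => t) _ γ g
      have e2 : ∀ k, avf (fun t => f (-t)) h (ns k) ((γ : SL(2, ℝ)) * g) =
          avf (fun t => f (-t)) h (ns k) g := fun k => avi (fun t => -t) _ γ g
      simp only [e1, e2]
    have hPF : ∀ᵐ g ∂mG, g ∈ dG F → P g := by
      rw [← ae_restrict_iff' hdm]
      have c0 : ∀ᵐ g ∂μ, g ∈ dG F := by
        rw [hμ]
        exact ae_restrict_mem hdm
      filter_upwards [c0, c1, c2] with g g0 g1 g2
      rw [hP]
      simp only [r3 g g0]
      refine ⟨?_, ?_⟩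
      · simp only [avT]
        exact g1
      · have d1 : Tendsto (fun k => ((ns k : ℕ) : ℝ)⁻¹ * ∑ j ∈ Finset.range (ns k), H (S^[j] g) -
            avf (fun t => f (-t)) h (ns k) g) atTop (𝓝 0) :=
          squeeze_zero_norm (fun k => avS (ns k) g) h2n
        have d2 := g2.sub d1
        rw [sub_zero] at d2
        refine d2.congr fun k => ?_
        ring
    -- translate
    have hcover : {g | ¬ P g} ⊆ ⋃ γ : Γ, (fun g => (γ : SL(2, ℝ)) * g) ⁻¹' {g | ¬ (g ∈ dG F → P g)} := by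
      intro g hg
      obtain ⟨γ, hγ⟩ := r4 g
      rw [mem_iUnion]
      refine ⟨γ, ?_⟩
      rw [mem_preimage, mem_ofPred_eq, Classical.not_imp, hPi]
      exact ⟨hγ ▸ r1 g, hg⟩
    rw [ae_iff]
    refine measure_mono_null hcover ?_
    rw [measure_iUnion_null_iff]
    intro γ
    have hqm : MeasurePreserving (fun g => (γ : SL(2, ℝ)) * g) mG mG := by
      refine ⟨(continuous_const.mul continuous_id).measurable, ?_⟩
      exact hGLI (γ : SL(2, ℝ))
    exact hqm.quasiMeasurePreserving.preimage_null (ae_iff.1 hPF)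
  · refine c3.congr fun n => ?_
    rw [hμ]
    refine setIntegral_congr_fun hdm fun g hg => ?_
    simp only [avT, r3 g hg]

end

end Pool.Agent.VQE
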