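import Pool.Agent.helper62.VQ.SpecE
import Pool.Agent.helper58.RS.QEF
import Pool.Agent.helper21.RS.QEX
import Pool.Agent.helper58.RS.GFD
import Pool.Agent.helper62.RS.GLC
import Pool.Agent.helper92.RS.GMG
import Pool.Agent.helper83.RS.GLI
import Pool.Agent.helper9.RS.GRI
import Pool.Agent.helper97.RS.GBD
import Pool.Agent.helper54.RS.QDV
import Pool.Agent.helper74.RS.ESM
import Pool.Agent.helper50.RS.QEQ
import Pool.Agent.helper20.RS.QRC
import Pool.Agent.helper80.RS.QZD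
import Pool.Agent.helper80.RS.QAV
import Pool.Agent.helper52.RS.SEQ

/-!
# MP_07c750, project VQ, block 5, row INS: the unperturbed flow
-/

set_option autoImplicit false

open scoped MatrixGroups ContDiff Topology UpperHalfPlane
open UpperHalfPlane MeasureTheory Filter Set

namespace Pool.Agent.VQE

open Pool.Agent.RS

noncomputable section

theorem INS_cont (hGLC : GLC_stmt) (h : ℍ → ℝ) (hh : Continuous h) (T : ℝ) :
    Continuous (fun g : SL(2, ℝ) => ∫ t in (0 : ℝ)..T, h ((g * aM t) • I)) := by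
  have := hGLC.2.1
  have h1 : Continuous (fun p : SL(2, ℝ) × ℝ => (p.1 * aM p.2) • I) :=
    isProperMap_smul_I.continuous.comp (continuous_fst.mul (hGLC.2.2.2.1.comp continuous_snd))
  have h2 : Continuous (Function.uncurry fun (g : SL(2, ℝ)) (t : ℝ) => h ((g * aM t) • I)) :=
    hh.comp h1
  exact intervalIntegral.continuous_parametric_intervalIntegral_of_continuous' h2 0 T

/-- the pointwise inequality -/
theorem INS_pt (T J M K θ θ' ε : ℝ) (hT : 0 < T) (hθ : 0 < θ) (hθ' : 0 < θ')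
    (hK : |T⁻¹ * J - M| ≤ K) :
    (T⁻¹ * J - M) ^ 2 ≤ (2 * ε) ^ 2 + K ^ 2 * Real.exp (-(θ * (M + 2 * ε) * T)) * Real.exp (θ * J) +
      K ^ 2 * Real.exp (-(θ' * (-M + 2 * ε) * T)) * Real.exp (θ' * -J) := by
  have hK2 : (T⁻¹ * J - M) ^ 2 ≤ K ^ 2 := by
    rw [← sq_abs (T⁻¹ * J - M)]
    exact pow_le_pow_left₀ (abs_nonneg _) hK 2
  have hJ : J = T * (T⁻¹ * J) := by field_simp
  set u := T⁻¹ * J with hu
  have p1 : 0 ≤ K ^ 2 * Real.exp (-(θ * (M + 2 * ε) * T)) * Real.exp (θ * J) := by positivity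
  have p2 : 0 ≤ K ^ 2 * Real.exp (-(θ' * (-M + 2 * ε) * T)) * Real.exp (θ' * -J) := by positivity
  have p3 : 0 ≤ (2 * ε) ^ 2 := by positivity
  rcases le_or_gt (2 * ε) (u - M) with h1 | h1
  · have h2 : 1 ≤ Real.exp (-(θ * (M + 2 * ε) * T)) * Real.exp (θ * J) := by
      rw [← Real.exp_add]
      refine Real.one_le_exp ?_
      rw [hJ]
      have h3 : 0 ≤ θ * T * (u - M - 2 * ε) := by
        have := mul_pos hθ hT
        have h4 : 0 ≤ u - M - 2 * ε := by linarith
        positivity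
      linarith [h3]
    have h5 : K ^ 2 ≤ K ^ 2 * Real.exp (-(θ * (M + 2 * ε) * T)) * Real.exp (θ * J) := by
      rw [mul_assoc]
      exact le_mul_of_one_le_right (sq_nonneg K) h2
    linarith
  · rcases le_or_gt (2 * ε) (-(u - M)) with h6 | h6
    · have h2 : 1 ≤ Real.exp (-(θ' * (-M + 2 * ε) * T)) * Real.exp (θ' * -J) := by
        rw [← Real.exp_add]
        refine Real.one_le_exp ?_
        rw [hJ]
        have h3 : 0 ≤ θ' * T * (-(u - M) - 2 * ε) := by
          have := mul_pos hθ' hT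
          have h4 : 0 ≤ -(u - M) - 2 * ε := by linarith
          positivity
        linarith [h3]
      have h5 : K ^ 2 ≤ K ^ 2 * Real.exp (-(θ' * (-M + 2 * ε) * T)) * Real.exp (θ' * -J) := by
        rw [mul_assoc]
        exact le_mul_of_one_le_right (sq_nonneg K) h2
      linarith
    · have h7 : (u - M) ^ 2 ≤ (2 * ε) ^ 2 := by
        rw [← sq_abs (u - M)]
        refine pow_le_pow_left₀ (abs_nonneg _) ?_ 2
        rw [abs_le]
        constructor <;> linarith
      linarith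

theorem INS_core (hGLC : GLC_stmt) (hGMG : GMG_stmt) (hGFD : GFD_stmt) (hQEX : QEX_stmt) :
    INS_stmt := by
  intro Γ F k hΓ hF hk
  obtain ⟨⟨hdm, hdv, hdt, -⟩, hG⟩ := hGFD Γ F hΓ hF
  obtain ⟨m, hm⟩ := (QU.A_BDD Γ F k hΓ hF hk).1
  have hm0 : 0 ≤ m := (abs_nonneg _).trans (hm I)
  have hint : ∀ u : SL(2, ℝ) → ℝ, Continuous u → IntegrableOn u (dG F) mG := fun u hu =>
    (hGMG.2.2.2.2 ℝ u F hu hF.meas hF.rel).1
  set V : ℝ := (volume F).toReal with hV
  have hV0 : 0 ≤ V := ENNReal.toReal_nonneg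
  set M : ℝ := mnG F (fun g => k (g • I)) with hM
  have hMeq : M = (∫ z in F, k z) / V := by
    rw [hM, mnG, hdv, (hG ℝ).2.1 k hk.1]
  have hk' : QU.Inv Γ (fun z => -k z) := ⟨hk.1.neg, fun γ z => by
    change -k (γ • z) = -k z
    rw [hk.2 γ z]⟩
  have hMeq' : (∫ z in F, -k z) / V = -M := by
    rw [hMeq, integral_neg, neg_div]
  set J : ℝ → SL(2, ℝ) → ℝ := fun T g => ∫ t in (0 : ℝ)..T, k ((g * aM t) • I) with hJ
  have hJc : ∀ T, Continuous (J T) := fun T => INS_cont hGLC k hk.1 T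
  have hJb : ∀ T g, 0 < T → |T⁻¹ * J T g - M| ≤ m + |M| := by
    intro T g hT
    have h1 : ‖J T g‖ ≤ m * |T - 0| :=
      intervalIntegral.norm_integral_le_of_norm_le_const fun t _ => hm _
    rw [sub_zero, abs_of_pos hT, Real.norm_eq_abs] at h1
    have h2 : |T⁻¹ * J T g| ≤ m := by
      rw [abs_mul, abs_of_pos (inv_pos.2 hT), inv_mul_le_iff₀ hT, mul_comm]
      exact h1
    exact (abs_sub _ _).trans (add_le_add h2 le_rfl)
  set K : ℝ := m + |M| with hK
  -- the integral inequality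
  have key : ∀ ε : ℝ, 0 < ε → ∃ a b A B : ℝ, 0 < a ∧ 0 < b ∧ ∀ T : ℝ, 0 < T →
      ∫ g in dG F, (T⁻¹ * J T g - M) ^ 2 ∂mG ≤ (2 * ε) ^ 2 * V + A * Real.exp (-(a * T)) +
        B * Real.exp (-(b * T)) := by
    intro ε hε
    obtain ⟨θ, C, hθ, hC, hQ⟩ := hQEX Γ F k ε hΓ hF hk hε
    obtain ⟨θ', C', hθ', hC', hQ'⟩ := hQEX Γ F (fun z => -k z) ε hΓ hF hk' hε
    refine ⟨θ * ε, θ' * ε, K ^ 2 * C * V, K ^ 2 * C' * V, by positivity, by positivity, ?_⟩
    intro T hT
    have e1 := QEF_iR hGLC hGFD Γ F hΓ hF k hk θ (C * Real.exp (θ * (M + ε) * T)) T hT.le hθ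
      (fun g => by rw [hMeq]; exact hQ T g hT.le)
    have e2 := QEF_iR hGLC hGFD Γ F hΓ hF (fun z => -k z) hk' θ' (C' * Real.exp (θ' * (-M + ε) * T)) T
      hT.le hθ' (fun g => by rw [← hMeq']; exact hQ' T g hT.le)
    have f1 : iR F (fun g => Real.exp (∫ t in (0 : ℝ)..T, θ * k ((g * aM t) • I))) =
        ∫ g in dG F, Real.exp (θ * J T g) ∂mG := by
      unfold iR
      simp only [hJ, intervalIntegral.integral_const_mul]
    have f2 : iR F (fun g => Real.exp (∫ t in (0 : ℝ)..T, θ' * (fun z => -k z) ((g * aM t) • I))) =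
        ∫ g in dG F, Real.exp (θ' * -J T g) ∂mG := by
      unfold iR
      simp only [hJ, intervalIntegral.integral_const_mul, intervalIntegral.integral_neg]
    rw [f1] at e1
    rw [f2] at e2
    have c1 : Continuous fun g => Real.exp (θ * J T g) :=
      Real.continuous_exp.comp (continuous_const.mul (hJc T))
    have c2 : Continuous fun g => Real.exp (θ' * -J T g) :=
      Real.continuous_exp.comp (continuous_const.mul (hJc T).neg)
    have c0 : Continuous fun g => (T⁻¹ * J T g - M) ^ 2 :=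
      ((continuous_const.mul (hJc T)).sub continuous_const).pow 2
    have i1 := (hint _ c1).const_mul (K ^ 2 * Real.exp (-(θ * (M + 2 * ε) * T)))
    have i2 := (hint _ c2).const_mul (K ^ 2 * Real.exp (-(θ' * (-M + 2 * ε) * T)))
    have i0 : IntegrableOn (fun _ : SL(2, ℝ) => (2 * ε) ^ 2) (dG F) mG := hint _ continuous_const
    have i01 : IntegrableOn (fun g => (2 * ε) ^ 2 +
        K ^ 2 * Real.exp (-(θ * (M + 2 * ε) * T)) * Real.exp (θ * J T g)) (dG F) mG := i0.add i1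
    have g1 : ∫ g in dG F, (T⁻¹ * J T g - M) ^ 2 ∂mG ≤ ∫ g in dG F, ((2 * ε) ^ 2 +
        K ^ 2 * Real.exp (-(θ * (M + 2 * ε) * T)) * Real.exp (θ * J T g) +
        K ^ 2 * Real.exp (-(θ' * (-M + 2 * ε) * T)) * Real.exp (θ' * -J T g)) ∂mG :=
      integral_mono (hint _ c0) (i01.add i2) fun g =>
        INS_pt T (J T g) M K θ θ' ε hT hθ hθ' (hJb T g hT)
    have g2 : ∫ g in dG F, ((2 * ε) ^ 2 +
        K ^ 2 * Real.exp (-(θ * (M + 2 * ε) * T)) * Real.exp (θ * J T g) +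
        K ^ 2 * Real.exp (-(θ' * (-M + 2 * ε) * T)) * Real.exp (θ' * -J T g)) ∂mG =
        (2 * ε) ^ 2 * V +
        K ^ 2 * Real.exp (-(θ * (M + 2 * ε) * T)) * ∫ g in dG F, Real.exp (θ * J T g) ∂mG +
        K ^ 2 * Real.exp (-(θ' * (-M + 2 * ε) * T)) * ∫ g in dG F, Real.exp (θ' * -J T g) ∂mG := by
      rw [integral_add i01 i2, integral_add i0 i1, integral_const_mul, integral_const_mul,
        setIntegral_const, smul_eq_mul, measureReal_def, hdv, ← hV, mul_comm V]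
    have g3 : K ^ 2 * Real.exp (-(θ * (M + 2 * ε) * T)) * ∫ g in dG F, Real.exp (θ * J T g) ∂mG ≤
        K ^ 2 * C * V * Real.exp (-(θ * ε * T)) := by
      refine (mul_le_mul_of_nonneg_left e1 (by positivity)).trans (le_of_eq ?_)
      have h1 : Real.exp (-(θ * (M + 2 * ε) * T)) * Real.exp (θ * (M + ε) * T) =
          Real.exp (-(θ * ε * T)) := by
        rw [← Real.exp_add]
        congr 1
        ring
      calc K ^ 2 * Real.exp (-(θ * (M + 2 * ε) * T)) * (C * Real.exp (θ * (M + ε) * T) * V)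
          = K ^ 2 * C * V * (Real.exp (-(θ * (M + 2 * ε) * T)) * Real.exp (θ * (M + ε) * T)) := by
            ring
        _ = _ := by rw [h1]
    have g4 : K ^ 2 * Real.exp (-(θ' * (-M + 2 * ε) * T)) * ∫ g in dG F, Real.exp (θ' * -J T g) ∂mG ≤
        K ^ 2 * C' * V * Real.exp (-(θ' * ε * T)) := by
      refine (mul_le_mul_of_nonneg_left e2 (by positivity)).trans (le_of_eq ?_)
      have h1 : Real.exp (-(θ' * (-M + 2 * ε) * T)) * Real.exp (θ' * (-M + ε) * T) =
          Real.exp (-(θ' * ε * T)) := by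
        rw [← Real.exp_add]
        congr 1
        ring
      calc K ^ 2 * Real.exp (-(θ' * (-M + 2 * ε) * T)) * (C' * Real.exp (θ' * (-M + ε) * T) * V)
          = K ^ 2 * C' * V * (Real.exp (-(θ' * (-M + 2 * ε) * T)) *
              Real.exp (θ' * (-M + ε) * T)) := by ring
        _ = _ := by rw [h1]
    rw [g2] at g1
    linarith
  -- the limit
  have hlim : ∀ a A : ℝ, 0 < a → Tendsto (fun n : ℕ => A * Real.exp (-(a * n))) atTop (𝓝 0) := by
    intro a A ha
    have h1 : Tendsto (fun n : ℕ => a * (n : ℝ)) atTop atTop :=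
      tendsto_natCast_atTop_atTop.const_mul_atTop ha
    have h2 := (Real.tendsto_exp_neg_atTop_nhds_zero.comp h1).const_mul A
    rw [mul_zero] at h2
    exact h2
  show Tendsto (fun n : ℕ => ∫ g in dG F, ((n : ℝ)⁻¹ * J n g - M) ^ 2 ∂mG) atTop (𝓝 0)
  rw [Metric.tendsto_atTop]
  intro η hη
  set ε : ℝ := min 1 (η / (8 * (V + 1))) with hε
  have hε0 : 0 < ε := lt_min one_pos (by positivity)
  have hε1 : ε ≤ 1 := min_le_left _ _
  have hε2 : ε ≤ η / (8 * (V + 1)) := min_le_right _ _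
  obtain ⟨a, b, A, B, ha, hb, hAB⟩ := key ε hε0
  have hev := (hlim a A ha).add (hlim b B hb)
  rw [add_zero] at hev
  have hev2 := (hev.eventually_lt_const (by linarith : (0 : ℝ) < η / 2)).and (eventually_ge_atTop 1)
  obtain ⟨n₀, hn₀⟩ := eventually_atTop.1 hev2
  refine ⟨n₀, fun n hn => ?_⟩
  obtain ⟨h1, h2⟩ := hn₀ n hn
  have hnpos : (0 : ℝ) < n := by exact_mod_cast h2
  have h3 := hAB n hnpos
  have h4 : 0 ≤ ∫ g in dG F, ((n : ℝ)⁻¹ * J n g - M) ^ 2 ∂mG :=
    integral_nonneg fun g => sq_nonneg _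
  rw [Real.dist_eq, sub_zero, abs_of_nonneg h4]
  have h5 : (2 * ε) ^ 2 * V ≤ η / 2 := by
    have h6 : ε * (8 * (V + 1)) ≤ η := by
      rw [le_div_iff₀ (by positivity)] at hε2
      exact hε2
    have h7 : ε ^ 2 * V ≤ ε * V := by
      refine mul_le_mul_of_nonneg_right ?_ hV0
      nlinarith
    nlinarith
  linarith

theorem INS_proof : INS_stmt := by
  have hGLC : GLC_stmt := GLC
  have hGMG : GMG_stmt := GMG hGLC
  have hGLI : GLI_stmt := GLI hGLC hGMG
  have hGRI : GRI_stmt := GRI hGLC hGMG hGLI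
  have hGFD : GFD_stmt := GFD hGLC hGMG hGLI hGRI
  have hGBD : GBD_stmt := GBD hGLC
  have hQDV : QDV_stmt := QDV hGLC hGBD SEQ
  have hQEQ : QEQ_stmt := QEQ hGLC hGBD hQDV (QZD hGLC (QAV hGLC))
  have hQEX : QEX_stmt := QEX hGLC hGBD hQDV ESM hQEQ (QRC hGLC)
  exact INS_core hGLC hGMG hGFD hQEX

end

end Pool.Agent.VQE
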